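import Pool.Agent.H93.HQ.Targets

namespace Pool.Agent.H69.HQ
open MeasureTheory Set Filter Topology Pool.Agent.H80.HS Pool.Agent.H93.HQ
open scoped ContDiff ENNReal

theorem pf_FI (h1 : U_LB) (h2 : U_S1) (h3 : U_N1) (h4 : U_N2) (h5 : U_N3) (h6 : U_ST)
    (h7 : U_EX) (h8 : T_C2) (h9 : T_G0) : U_FI := by
  obtain ⟨A1, hN1⟩ := h3
  obtain ⟨A2, hN2⟩ := h4
  obtain ⟨A3, hN3⟩ := h5
  refine ⟨max A1 (max A2 A3), ?_⟩
  intro n hn p hp hpQ 𝕜 _
  have hn1 : (1 : ℝ) ≤ n := by exact_mod_cast hn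
  have hp0 : 0 < p := by linarith
  have hlog : 0 ≤ Real.log (n + 1) := Real.log_nonneg (by linarith)
  have hE : 0 ≤ p * Real.log (n + 1) / n := by positivity
  have hA : ∀ B : ℝ, B ≤ max A1 (max A2 A3) →
      B * p * Real.log (n + 1) / n ≤ max A1 (max A2 A3) * p * Real.log (n + 1) / n := by
    intro B hB
    calc B * p * Real.log (n + 1) / n = B * (p * Real.log (n + 1) / n) := by ring
      _ ≤ max A1 (max A2 A3) * (p * Real.log (n + 1) / n) := mul_le_mul_of_nonneg_right hB hE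
      _ = _ := by ring
  have hB1 := hA A1 (le_max_left _ _)
  have hB2 := hA A2 ((le_max_left _ _).trans (le_max_right _ _))
  have hB3 := hA A3 ((le_max_right _ _).trans (le_max_right _ _))
  have ha := sg_pos hn (le_refl (0 : ℝ))
  have hb := sg_pos hn hp0.le
  obtain ⟨hL0, hL1⟩ := hN1 n hn p hp hpQ
  -- the lower bound
  have hlow : ∀ C, SobolevIneq 𝕜 n p C → LB1 n p ≤ C := by
    intro C hC
    have e1 := h1 n hn p C hp hpQ (h9 𝕜 n p C hC)
    have e2 : 1 ≤ sg n 0 / sg n p := by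
      rw [le_div_iff₀ hb, one_mul]
      exact (h2 n hn p hp0.le (by linarith)).1
    calc LB1 n p = 1 * LB1 n p := (one_mul _).symm
      _ ≤ sg n 0 / sg n p * LB1 n p := mul_le_mul_of_nonneg_right e2 hL0.le
      _ ≤ C := e1
  -- the upper bound
  have hup : ∃ U : ℝ, SobolevIneq 𝕜 n p U ∧
      Real.log U ≤ Real.log (MM n p) + max A1 (max A2 A3) * p * Real.log (n + 1) / n := by
    by_cases hc : p ≤ 2 * n + 1
    · refine ⟨((2 * (n : ℝ) + 2) * p / (2 * n + 2 - p) * CC n) ^ p, h8 𝕜 n hn p hp hpQ, ?_⟩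
      have := hN2 n hn p hp hc
      linarith
    · push Not at hc
      refine ⟨UB n p (sg n 0), h6 n hn 𝕜 p (sg n 0) hp hpQ ha, ?_⟩
      have := (hN3 n hn p hc hpQ).2
      linarith
  obtain ⟨U, hU1, hU2⟩ := hup
  obtain ⟨C, hC1, hC2, hC3⟩ := h7 𝕜 n p (LB1 n p) U hL0 hU1 hlow
  have hC0 : 0 < C := hL0.trans_le hC2
  refine ⟨C, hC0, hC1, ?_⟩
  have e1 := Real.log_le_log hL0 hC2
  have e2 := Real.log_le_log hC0 hC3
  have e3 : Real.log ((n / (Real.pi * Real.exp 1)) ^ (p / 2) * p ^ p /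
      ((2 * n + 2) * (2 * n + 2 - p) ^ (p - 1))) = Real.log (MM n p) := rfl
  rw [e3, abs_le]
  constructor <;> linarith

end Pool.Agent.H69.HQ
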