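import Pool.Agent.H93.HQ.Targets

namespace Pool.Agent.H69.HQ
open MeasureTheory Set Filter Topology Pool.Agent.H80.HS Pool.Agent.H93.HQ
open scoped ContDiff ENNReal

/-- the tail integral of a power -/
lemma tail_K2 (e ρ : ℝ) (he : e < -1) (hρ : 0 < ρ) :
    ∫⁻ r in Ici ρ, ENNReal.ofReal (r ^ e) = ENNReal.ofReal (-ρ ^ (e + 1) / (e + 1)) := by
  rw [← integral_Ioi_rpow_of_lt he hρ]
  rw [setLIntegral_congr (Ioi_ae_eq_Ici (a := ρ)).symm]
  rw [ofReal_integral_eq_lintegral_ofReal]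
  · exact integrableOn_Ioi_rpow_of_lt he hρ
  · rw [EventuallyLE, ae_restrict_iff' measurableSet_Ioi]
    exact Eventually.of_forall fun r hr => Real.rpow_nonneg (hρ.trans hr).le _

lemma ker_pow_K2 {n : ℕ} {p : ℝ} (hp : 1 < p) (x : H n) (hx : 0 < N x) :
    ENNReal.ofReal (ker p x) ^ (p / (p - 1)) =
      ENNReal.ofReal (al x ^ p) * ENNReal.ofReal (N x ^ (-(2 * (n : ℝ) + 1) * (p / (p - 1)))) := by
  have hp1 : 0 < p - 1 := by linarith
  have hq : 0 ≤ p / (p - 1) := by positivity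
  rw [ENNReal.ofReal_rpow_of_nonneg (ker_nonneg p x) hq,
    ← ENNReal.ofReal_mul (Real.rpow_nonneg (al_nonneg x) _)]
  congr 1
  unfold Pool.Agent.H93.HQ.ker
  rw [Real.mul_rpow (Real.rpow_nonneg hx.le _) (Real.rpow_nonneg (al_nonneg x) _),
    ← Real.rpow_mul hx.le, ← Real.rpow_mul (al_nonneg x)]
  have h1 : (p - 1) * (p / (p - 1)) = p := by field_simp
  rw [h1]
  ring

theorem pf_K2 (h : U_POL) : U_K2 := by
  intro n hn p ρ hp hpQ hρ
  have hp1 : 0 < p - 1 := by linarith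
  have hQp : 0 < 2 * (n : ℝ) + 2 - p := by linarith
  have hn1 : (1 : ℝ) ≤ n := by exact_mod_cast hn
  have hmN : Measurable (N : H n → ℝ) := continuous_N.measurable
  have hS : MeasurableSet {x : H n | ρ ≤ N x} := hmN measurableSet_Ici
  let f : ℝ → ℝ≥0∞ := (Ici ρ).indicator
    (fun r => ENNReal.ofReal (r ^ (-(2 * (n : ℝ) + 1) * (p / (p - 1)))))
  have hf : Measurable f := by
    refine Measurable.indicator ?_ measurableSet_Ici
    fun_prop
  have h1 : ∫⁻ x : H n in {x | ρ ≤ N x}, ENNReal.ofReal (ker p x) ^ (p / (p - 1)) =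
      ∫⁻ x : H n, ENNReal.ofReal (al x ^ p) * f (N x) := by
    rw [← lintegral_indicator hS]
    apply lintegral_congr
    intro x
    by_cases hx : ρ ≤ N x
    · have h2 : x ∈ {x : H n | ρ ≤ N x} := hx
      have h3 : N x ∈ Ici ρ := hx
      rw [Set.indicator_of_mem h2]
      simp only [f, Set.indicator_of_mem h3]
      exact ker_pow_K2 hp x (hρ.trans_le hx)
    · have h2 : x ∉ {x : H n | ρ ≤ N x} := hx
      have h3 : N x ∉ Ici ρ := hx
      rw [Set.indicator_of_notMem h2]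
      simp only [f, Set.indicator_of_notMem h3]
      simp
  rw [h1, h n hn p (by linarith) f hf]
  have h4 : ∫⁻ r in Ioi (0 : ℝ), f r * ENNReal.ofReal (r ^ (2 * (n : ℝ) + 1)) =
      ∫⁻ r in Ici ρ, ENNReal.ofReal (r ^ (-((2 * (n : ℝ) + 1) / (p - 1)))) := by
    rw [← lintegral_indicator measurableSet_Ioi, ← lintegral_indicator measurableSet_Ici]
    apply lintegral_congr
    intro r
    by_cases hr : ρ ≤ r
    · have hr0 : 0 < r := hρ.trans_le hr
      have h2 : r ∈ Ioi (0 : ℝ) := hr0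
      have h3 : r ∈ Ici ρ := hr
      rw [Set.indicator_of_mem h2, Set.indicator_of_mem h3]
      simp only [f, Set.indicator_of_mem h3]
      rw [← ENNReal.ofReal_mul (Real.rpow_nonneg hr0.le _), ← Real.rpow_add hr0]
      congr 2
      field_simp
      ring
    · have h3 : r ∉ Ici ρ := hr
      rw [Set.indicator_of_notMem h3]
      by_cases hr0 : 0 < r
      · have h2 : r ∈ Ioi (0 : ℝ) := hr0
        rw [Set.indicator_of_mem h2]
        simp only [f, Set.indicator_of_notMem h3]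
        simp
      · have h2 : r ∉ Ioi (0 : ℝ) := hr0
        rw [Set.indicator_of_notMem h2]
  have he : -((2 * (n : ℝ) + 1) / (p - 1)) < -1 := by
    have : 1 < (2 * (n : ℝ) + 1) / (p - 1) := by
      rw [lt_div_iff₀ hp1]
      linarith
    linarith
  rw [h4, tail_K2 _ ρ he hρ, ← ENNReal.ofReal_mul (sg_pos hn (by linarith)).le]
  congr 1
  have h5 : -((2 * (n : ℝ) + 1) / (p - 1)) + 1 = -((2 * (n : ℝ) + 2 - p) / (p - 1)) := by
    field_simp
    ring
  rw [h5]
  field_simp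

end Pool.Agent.H69.HQ
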