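import Pool.Agent.H93.HQ.Targets

namespace Pool.Agent.H69.HQ
open MeasureTheory Set Filter Topology Pool.Agent.H80.HS Pool.Agent.H93.HQ
open scoped ContDiff ENNReal

/-- the real number computation at the end -/
lemma fin_LB (Q p a b M J C : ℝ) (hp : 1 < p) (hpQ : p < Q) (ha : 0 < a) (hb : 0 < b)
    (hJ : 0 < J) (hC : 0 < C) (hM : M = (p - 1) ^ (1 - 1 / p) / p) (hJM : J ≤ p * M ^ (Q - 1))
    (h : (a * J) ^ ((Q - p) / Q) ≤
      C * b * (((Q - p) / (p - 1)) ^ p * (Q * (p - 1) / (Q - p) * J))) :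
    a / b * (p ^ p / (Q * (Q - p) ^ (p - 1)) * (M / (a * p)) ^ (p / Q)) ≤ C := by
  have hp0 : 0 < p := by linarith
  have hQ0 : 0 < Q := by linarith
  have hp1 : 0 < p - 1 := by linarith
  have hQp : 0 < Q - p := by linarith
  have hM0 : 0 < M := by
    rw [hM]
    positivity
  have hMp : M ^ p = (p - 1) ^ (p - 1) / p ^ p := by
    rw [hM, Real.div_rpow (by positivity) hp0.le, ← Real.rpow_mul hp1.le]
    congr 2
    field_simp
  have e1 : ((Q - p) / (p - 1)) ^ p * (Q * (p - 1) / (Q - p) * J) =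
      (Q - p) ^ (p - 1) / (p - 1) ^ (p - 1) * Q * J := by
    have h1 : ((Q - p) / (p - 1)) ^ p = ((Q - p) / (p - 1)) ^ (p - 1) * ((Q - p) / (p - 1)) := by
      have h2 : ((Q - p) / (p - 1)) ^ ((p - 1) + 1) =
          ((Q - p) / (p - 1)) ^ (p - 1) * ((Q - p) / (p - 1)) :=
        Real.rpow_add_one (by positivity) _
      rwa [sub_add_cancel] at h2
    rw [h1, Real.div_rpow hQp.le hp1.le]
    field_simp
  have e2 : (a * J) ^ ((Q - p) / Q) = a * J * ((a * J) ^ (p / Q))⁻¹ := by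
    have h1 : (Q - p) / Q = 1 + -(p / Q) := by
      field_simp
      ring
    rw [h1, Real.rpow_add (by positivity), Real.rpow_one, Real.rpow_neg (by positivity)]
  have h2 : a * ((a * J) ^ (p / Q))⁻¹ ≤
      C * b * ((Q - p) ^ (p - 1) / (p - 1) ^ (p - 1) * Q) := by
    rw [e1, e2] at h
    have h3 : J * (a * ((a * J) ^ (p / Q))⁻¹) ≤
        J * (C * b * ((Q - p) ^ (p - 1) / (p - 1) ^ (p - 1) * Q)) := by
      calc J * (a * ((a * J) ^ (p / Q))⁻¹) = a * J * ((a * J) ^ (p / Q))⁻¹ := by ring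
        _ ≤ _ := h
        _ = _ := by ring
    exact le_of_mul_le_mul_left h3 hJ
  have h3 : (a * J) ^ (p / Q) ≤ (a * (p * M ^ (Q - 1))) ^ (p / Q) :=
    Real.rpow_le_rpow (by positivity) (mul_le_mul_of_nonneg_left hJM ha.le) (by positivity)
  have e4 : (a * (p * M ^ (Q - 1))) ^ (p / Q) = (a * p) ^ (p / Q) * M ^ p / M ^ (p / Q) := by
    rw [← mul_assoc, Real.mul_rpow (by positivity) (by positivity), ← Real.rpow_mul hM0.le]
    have h5 : (Q - 1) * (p / Q) = p - p / Q := by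
      field_simp
    rw [h5, Real.rpow_sub hM0]
    ring
  have h5 : a * (M / (a * p)) ^ (p / Q) / M ^ p ≤ a * ((a * J) ^ (p / Q))⁻¹ := by
    have h6 : a * (M / (a * p)) ^ (p / Q) / M ^ p =
        a * ((a * (p * M ^ (Q - 1))) ^ (p / Q))⁻¹ := by
      rw [e4, Real.div_rpow hM0.le (by positivity)]
      field_simp
    rw [h6]
    apply mul_le_mul_of_nonneg_left _ ha.le
    exact inv_anti₀ (by positivity) h3
  have h7 := h5.trans h2
  rw [hMp] at h7
  have hA : 0 < p ^ p := by positivity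
  have hB : 0 < (p - 1) ^ (p - 1) := by positivity
  have hD : 0 < (Q - p) ^ (p - 1) := by positivity
  have h8 : a * (M / (a * p)) ^ (p / Q) * p ^ p ≤ C * b * ((Q - p) ^ (p - 1) * Q) := by
    have h9 := mul_le_mul_of_nonneg_right h7 hB.le
    calc a * (M / (a * p)) ^ (p / Q) * p ^ p =
        a * (M / (a * p)) ^ (p / Q) / ((p - 1) ^ (p - 1) / p ^ p) * (p - 1) ^ (p - 1) := by
          field_simp
      _ ≤ _ := h9
      _ = _ := by field_simp
  have h10 : a / b * (p ^ p / (Q * (Q - p) ^ (p - 1)) * (M / (a * p)) ^ (p / Q)) =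
      (a * (M / (a * p)) ^ (p / Q) * p ^ p) / (b * ((Q - p) ^ (p - 1) * Q)) := by
    field_simp
  rw [h10, div_le_iff₀ (by positivity)]
  calc _ ≤ _ := h8
    _ = _ := by ring

theorem pf_LB (h1 : U_RI) (h2 : U_BL1) (h3 : U_BL2) : U_LB := by
  intro n hn p C hp hpQ hC
  have hn1 : (1 : ℝ) ≤ n := by exact_mod_cast hn
  have hp0 : 0 < p := by linarith
  have hp1 : 0 < p - 1 := by linarith
  have hQp : 0 < 2 * (n : ℝ) + 2 - p := by linarith
  have ha := sg_pos hn (le_refl (0 : ℝ))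
  have hb := sg_pos hn hp0.le
  obtain ⟨J, hJ, hJM, hJ1, hJ2⟩ := h2 (2 * (n : ℝ) + 2) p hp hpQ
  have key := h1 n hn p C hp hpQ hC
    (fun s => (2 * (n : ℝ) + 2 - p) / (p - 1) * s ^ (p / (p - 1) - 1) *
      (1 + s ^ (p / (p - 1))) ^ (-((2 * (n : ℝ) + 2) / p))) (by
        intro s hs
        have hs0 : 0 < s := hs
        apply ContDiffAt.contDiffWithinAt
        have e1 : ContDiffAt ℝ ∞ (fun s : ℝ => s ^ (p / (p - 1) - 1)) s :=
          Real.contDiffAt_rpow_const_of_ne hs0.ne'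
        have e2 : ContDiffAt ℝ ∞ (fun s : ℝ => s ^ (p / (p - 1))) s :=
          Real.contDiffAt_rpow_const_of_ne hs0.ne'
        have e3 : ContDiffAt ℝ ∞ (fun s : ℝ => (1 + s ^ (p / (p - 1))) ^
            (-((2 * (n : ℝ) + 2) / p))) s :=
          (contDiffAt_const.add e2).rpow_const_of_ne (by positivity)
        exact (contDiffAt_const.mul e1).mul e3) (by
        intro r hr
        positivity)
  -- the left side
  have hL : (ENNReal.ofReal (sg n 0) * ∫⁻ r in Ioi (0 : ℝ),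
      (∫⁻ s in Ioi r, ENNReal.ofReal ((2 * (n : ℝ) + 2 - p) / (p - 1) * s ^ (p / (p - 1) - 1) *
        (1 + s ^ (p / (p - 1))) ^ (-((2 * (n : ℝ) + 2) / p)))) ^
          ((2 * (n : ℝ) + 2) * p / (2 * n + 2 - p)) *
        ENNReal.ofReal (r ^ (2 * (n : ℝ) + 1))) ^ ((2 * (n : ℝ) + 2 - p) / (2 * n + 2)) =
      ENNReal.ofReal ((sg n 0 * J) ^ ((2 * (n : ℝ) + 2 - p) / (2 * n + 2))) := by
    have hin : ∫⁻ r in Ioi (0 : ℝ),
      (∫⁻ s in Ioi r, ENNReal.ofReal ((2 * (n : ℝ) + 2 - p) / (p - 1) * s ^ (p / (p - 1) - 1) *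
        (1 + s ^ (p / (p - 1))) ^ (-((2 * (n : ℝ) + 2) / p)))) ^
          ((2 * (n : ℝ) + 2) * p / (2 * n + 2 - p)) *
        ENNReal.ofReal (r ^ (2 * (n : ℝ) + 1)) = ENNReal.ofReal J := by
      rw [← hJ1]
      apply setLIntegral_congr_fun measurableSet_Ioi
      intro r hr
      have hr0 : 0 < r := hr
      simp only
      rw [h3 (2 * (n : ℝ) + 2) p r hp hpQ hr0]
      rw [ENNReal.ofReal_rpow_of_nonneg (by positivity) (by positivity),
        ← Real.rpow_mul (by positivity), ← ENNReal.ofReal_mul (by positivity)]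
      have e1 : -((2 * (n : ℝ) + 2 - p) / p) * ((2 * (n : ℝ) + 2) * p / (2 * n + 2 - p)) =
          -(2 * (n : ℝ) + 2) := by
        have hne := hQp.ne'
        generalize 2 * (n : ℝ) + 2 - p = D at hne
        field_simp
      have e2 : 2 * (n : ℝ) + 2 - 1 = 2 * (n : ℝ) + 1 := by ring
      rw [e1, e2, mul_comm]
    rw [hin, ← ENNReal.ofReal_mul ha.le,
      ENNReal.ofReal_rpow_of_nonneg (by positivity) (by positivity)]
  -- the right side
  have hR : ∫⁻ r in Ioi (0 : ℝ), ENNReal.ofReal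
      (((2 * (n : ℝ) + 2 - p) / (p - 1) * r ^ (p / (p - 1) - 1) *
        (1 + r ^ (p / (p - 1))) ^ (-((2 * (n : ℝ) + 2) / p))) ^ p * r ^ (2 * (n : ℝ) + 1)) ≤
      ENNReal.ofReal (((2 * (n : ℝ) + 2 - p) / (p - 1)) ^ p *
        ((2 * (n : ℝ) + 2) * (p - 1) / (2 * n + 2 - p) * J)) := by
    have hc : 0 ≤ ((2 * (n : ℝ) + 2 - p) / (p - 1)) ^ p := by positivity
    rw [ENNReal.ofReal_mul hc]
    refine le_trans (le_of_eq ?_) (mul_le_mul_right hJ2 _)
    rw [← lintegral_const_mul' _ _ ENNReal.ofReal_ne_top]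
    apply setLIntegral_congr_fun measurableSet_Ioi
    intro r hr
    have hr0 : 0 < r := hr
    simp only
    rw [← ENNReal.ofReal_mul hc]
    congr 1
    rw [Real.mul_rpow (by positivity) (by positivity), Real.mul_rpow (by positivity)
      (by positivity), ← Real.rpow_mul hr0.le, ← Real.rpow_mul (by positivity)]
    have e1 : (p / (p - 1) - 1) * p = p / (p - 1) := by
      field_simp
      ring
    have e2 : -((2 * (n : ℝ) + 2) / p) * p = -(2 * (n : ℝ) + 2) := by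
      field_simp
    have e3 : r ^ (2 * (n : ℝ) + 2 - 1 + p / (p - 1)) =
        r ^ (p / (p - 1)) * r ^ (2 * (n : ℝ) + 1) := by
      rw [← Real.rpow_add hr0]
      congr 1
      ring
    rw [e1, e2, e3]
    generalize r ^ (2 * (n : ℝ) + 1) = A
    generalize r ^ (p / (p - 1)) = B
    generalize (1 + B) ^ (-(2 * (n : ℝ) + 2)) = D
    generalize ((2 * (n : ℝ) + 2 - p) / (p - 1)) ^ p = E
    ring
  have key2 : ENNReal.ofReal ((sg n 0 * J) ^ ((2 * (n : ℝ) + 2 - p) / (2 * n + 2))) ≤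
      ENNReal.ofReal (C * sg n p) * ENNReal.ofReal (((2 * (n : ℝ) + 2 - p) / (p - 1)) ^ p *
        ((2 * (n : ℝ) + 2) * (p - 1) / (2 * n + 2 - p) * J)) := by
    rw [← hL]
    exact key.trans (mul_le_mul_right hR _)
  have hX : 0 < (sg n 0 * J) ^ ((2 * (n : ℝ) + 2 - p) / (2 * n + 2)) := by positivity
  have hC0 : 0 < C := by
    by_contra hneg
    push Not at hneg
    rw [ENNReal.ofReal_of_nonpos (by nlinarith : C * sg n p ≤ 0), zero_mul] at key2
    have := ENNReal.ofReal_pos.2 hX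
    exact absurd (lt_of_lt_of_le this key2) (lt_irrefl _)
  rw [← ENNReal.ofReal_mul (by positivity)] at key2
  have key3 := (ENNReal.ofReal_le_ofReal_iff (by positivity)).1 key2
  exact fin_LB (2 * (n : ℝ) + 2) p (sg n 0) (sg n p) (MX p) J C hp hpQ ha hb hJ hC0 rfl hJM key3

end Pool.Agent.H69.HQ
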